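import Mathlib
import Pool.Agent.H659R3.CT.SimpStmts

set_option autoImplicit false
set_option maxHeartbeats 4000000

/-! Project H659-CT, simplicial part: `S6`, prisms. -/

namespace Pool.Agent.H659R3.CT

open unitInterval Topology

noncomputable section

namespace Prism509

/-- partial sums -/
def X (x : ℕ → ℝ) (n : ℕ) : ℝ := ∑ u ∈ Finset.range n, x u

/-- clamp -/
def mm (a X : ℝ) : ℝ := min (max a 0) X

/-- cumulative function of the level `c` -/
def ph (j : ℕ) (t : ℝ) (c : ℕ) (X : ℝ) : ℝ :=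
  if c = 0 then mm (1 - 3 * t) X + (X - mm (3 - 3 * t) X)
  else if c = 2 * j + 1 then mm (2 - 3 * t) X - mm (1 - 3 * t) X
  else if c = 2 * j + 2 then mm (3 - 3 * t) X - mm (2 - 3 * t) X
  else 0

/-- the level zero -/
def p0 (c : ℕ) (X : ℝ) : ℝ := if c = 0 then X else 0

/-- the point of the product -/
def G (x : ℕ → ℝ) (φ : ℕ → ℝ → ℝ) : ℕ → ℝ := fun n =>
  φ n.unpair.2 (X x (n.unpair.1 + 1)) - φ n.unpair.2 (X x n.unpair.1)

/-- point of the simplex `s` -/
def Pt (x : ℕ → ℝ) (s : List ℕ) : Prop :=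
  (∀ i, 0 ≤ x i) ∧ (∀ i, i ∉ s → x i = 0) ∧ ∑ i ∈ s.toFinset, x i = 1

theorem X_succ (x : ℕ → ℝ) (n : ℕ) : X x (n + 1) = X x n + x n := Finset.sum_range_succ _ _

theorem X_zero (x : ℕ → ℝ) : X x 0 = 0 := Finset.sum_range_zero _

theorem X_mono {x : ℕ → ℝ} (h : ∀ i, 0 ≤ x i) : Monotone (X x) := by
  refine monotone_nat_of_le_succ fun n => ?_
  rw [X_succ]
  linarith [h n]

theorem X_nonneg {x : ℕ → ℝ} (h : ∀ i, 0 ≤ x i) (n : ℕ) : 0 ≤ X x n :=
  Finset.sum_nonneg fun i _ => h i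

theorem sum_eq {y : ℕ → ℝ} (S T : Finset ℕ) (hS : ∀ i, i ∉ S → y i = 0)
    (hT : ∀ i, i ∉ T → y i = 0) : ∑ i ∈ S, y i = ∑ i ∈ T, y i := by
  rw [Finset.sum_subset (Finset.subset_union_left (s₂ := T)) fun i _ hi => hS i hi,
    Finset.sum_subset (Finset.subset_union_right (s₁ := S) (s₂ := T)) fun i _ hi => hT i hi]

theorem X_le_sum {x : ℕ → ℝ} (h : ∀ i, 0 ≤ x i) (S : Finset ℕ) (hS : ∀ i, i ∉ S → x i = 0)
    (n : ℕ) : X x n ≤ ∑ i ∈ S, x i := by
  rw [sum_eq S (Finset.range n ∪ S) hS fun i hi => hS i fun h' =>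
    hi (Finset.mem_union_right _ h')]
  exact Finset.sum_le_sum_of_subset_of_nonneg Finset.subset_union_left fun i _ _ => h i

theorem X_le_one {x : ℕ → ℝ} {s : List ℕ} (h : Pt x s) (n : ℕ) : X x n ≤ 1 := by
  rw [← h.2.2]
  exact X_le_sum h.1 _ (fun i hi => h.2.1 i fun h' => hi (List.mem_toFinset.2 h')) n

theorem X_eq_one {x : ℕ → ℝ} {s : List ℕ} (h : Pt x s) (n : ℕ) (hn : ∀ i ∈ s, i < n) :
    X x n = 1 := by
  rw [← h.2.2]
  refine sum_eq _ _ (fun i hi => h.2.1 i fun h' => hi (Finset.mem_range.2 (hn i h')))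
    (fun i hi => h.2.1 i fun h' => hi (List.mem_toFinset.2 h'))

/-- shape of the level functions over an edge -/
def Sh (φ : ℕ → ℝ → ℝ) (c c' : ℕ) (μ : ℝ) : Prop := ∀ X : ℝ, 0 ≤ X → X ≤ 1 →
  φ c X = min μ X ∧ φ c' X = X - min μ X ∧ ∀ d, d ≠ c → d ≠ c' → φ d X = 0

/-- edges of the circle `j` -/
def Ed (j c c' : ℕ) : Prop :=
  (c = 0 ∧ c' = 2 * j + 1) ∨ (c = 2 * j + 1 ∧ c' = 2 * j + 2) ∨ (c = 2 * j + 2 ∧ c' = 0)

theorem mm_eq (μ X : ℝ) (h : 0 ≤ μ) : mm μ X = min μ X := by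
  unfold mm
  rw [max_eq_left h]

theorem mm_zero (μ X : ℝ) (h : μ ≤ 0) (hX : 0 ≤ X) : mm μ X = 0 := by
  unfold mm
  rw [max_eq_right h, min_eq_left hX]

theorem mm_one (μ X : ℝ) (h : 1 ≤ μ) (hX : X ≤ 1) : mm μ X = X := by
  unfold mm
  rw [min_eq_right]
  exact le_trans hX (le_trans h (le_max_left _ _))

theorem sh0 (j : ℕ) (μ : ℝ) (h0 : 0 ≤ μ) (_ : μ ≤ 1) : Sh (ph j ((1 - μ) / 3)) 0 (2 * j + 1) μ := by
  intro Y hY0 hY1
  have e1 : 1 - 3 * ((1 - μ) / 3) = μ := by ring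
  have e2 : 2 - 3 * ((1 - μ) / 3) = 1 + μ := by ring
  have e3 : 3 - 3 * ((1 - μ) / 3) = 2 + μ := by ring
  refine ⟨?_, ?_, ?_⟩
  · unfold ph
    rw [if_pos rfl, e1, e3, mm_eq _ _ h0, mm_one (2 + μ) _ (by linarith) hY1]
    ring
  · unfold ph
    rw [if_neg (by omega), if_pos rfl, e1, e2, mm_eq _ _ h0, mm_one (1 + μ) _ (by linarith) hY1]
  · intro d hd hd'
    unfold ph
    rw [if_neg hd, if_neg hd', e2, e3, mm_one (2 + μ) _ (by linarith) hY1,
      mm_one (1 + μ) _ (by linarith) hY1]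
    simp

theorem sh1 (j : ℕ) (μ : ℝ) (h0 : 0 ≤ μ) (h1 : μ ≤ 1) :
    Sh (ph j ((2 - μ) / 3)) (2 * j + 1) (2 * j + 2) μ := by
  intro Y hY0 hY1
  have e1 : 1 - 3 * ((2 - μ) / 3) = μ - 1 := by ring
  have e2 : 2 - 3 * ((2 - μ) / 3) = μ := by ring
  have e3 : 3 - 3 * ((2 - μ) / 3) = 1 + μ := by ring
  refine ⟨?_, ?_, ?_⟩
  · unfold ph
    rw [if_neg (by omega), if_pos rfl, e1, e2, mm_eq _ _ h0, mm_zero (μ - 1) _ (by linarith) hY0]
    ring
  · unfold ph
    rw [if_neg (by omega), if_neg (by omega), if_pos rfl, e2, e3, mm_eq _ _ h0,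
      mm_one (1 + μ) _ (by linarith) hY1]
  · intro d hd hd'
    unfold ph
    by_cases h : d = 0
    · rw [if_pos h, e1, e3, mm_one (1 + μ) _ (by linarith) hY1,
        mm_zero (μ - 1) _ (by linarith) hY0]
      ring
    · rw [if_neg h, if_neg hd, if_neg hd']

theorem sh2 (j : ℕ) (μ : ℝ) (h0 : 0 ≤ μ) (h1 : μ ≤ 1) :
    Sh (ph j ((3 - μ) / 3)) (2 * j + 2) 0 μ := by
  intro Y hY0 hY1
  have e1 : 1 - 3 * ((3 - μ) / 3) = μ - 2 := by ring
  have e2 : 2 - 3 * ((3 - μ) / 3) = μ - 1 := by ring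
  have e3 : 3 - 3 * ((3 - μ) / 3) = μ := by ring
  refine ⟨?_, ?_, ?_⟩
  · unfold ph
    rw [if_neg (by omega), if_neg (by omega), if_pos rfl, e2, e3, mm_eq _ _ h0,
      mm_zero (μ - 1) _ (by linarith) hY0]
    ring
  · unfold ph
    rw [if_pos rfl, e1, e3, mm_eq _ _ h0, mm_zero (μ - 2) _ (by linarith) hY0]
    ring
  · intro d hd hd'
    unfold ph
    rw [if_neg hd', if_neg hd, e1, e2, mm_zero (μ - 1) _ (by linarith) hY0,
      mm_zero (μ - 2) _ (by linarith) hY0]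
    simp

theorem edge_of_t (j : ℕ) (t : ℝ) (h0 : 0 ≤ t) (h1 : t ≤ 1) :
    ∃ c c' μ, Ed j c c' ∧ 0 ≤ μ ∧ μ ≤ 1 ∧ Sh (ph j t) c c' μ := by
  rcases le_total t (1 / 3) with h | h
  · refine ⟨0, 2 * j + 1, 1 - 3 * t, Or.inl ⟨rfl, rfl⟩, by linarith, by linarith, ?_⟩
    have := sh0 j (1 - 3 * t) (by linarith) (by linarith)
    rwa [show (1 - (1 - 3 * t)) / 3 = t by ring] at this
  · rcases le_total t (2 / 3) with h' | h'
    · refine ⟨2 * j + 1, 2 * j + 2, 2 - 3 * t, Or.inr (Or.inl ⟨rfl, rfl⟩), by linarith,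
        by linarith, ?_⟩
      have := sh1 j (2 - 3 * t) (by linarith) (by linarith)
      rwa [show (2 - (2 - 3 * t)) / 3 = t by ring] at this
    · refine ⟨2 * j + 2, 0, 3 - 3 * t, Or.inr (Or.inr ⟨rfl, rfl⟩), by linarith,
        by linarith, ?_⟩
      have := sh2 j (3 - 3 * t) (by linarith) (by linarith)
      rwa [show (3 - (3 - 3 * t)) / 3 = t by ring] at this

theorem t_of_edge (j c c' : ℕ) (h : Ed j c c') (μ : ℝ) (h0 : 0 ≤ μ) (h1 : μ ≤ 1) :
    ∃ t, 0 ≤ t ∧ t ≤ 1 ∧ Sh (ph j t) c c' μ := by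
  rcases h with ⟨rfl, rfl⟩ | ⟨rfl, rfl⟩ | ⟨rfl, rfl⟩
  · exact ⟨(1 - μ) / 3, by linarith, by linarith, sh0 j μ h0 h1⟩
  · exact ⟨(2 - μ) / 3, by linarith, by linarith, sh1 j μ h0 h1⟩
  · exact ⟨(3 - μ) / 3, by linarith, by linarith, sh2 j μ h0 h1⟩

theorem Ed.ne {j c c' : ℕ} (h : Ed j c c') : c ≠ c' := by
  unfold Ed at h
  omega

theorem pv_inj {v c v' c' : ℕ} (h : pv v c = pv v' c') : v = v' ∧ c = c' := by
  unfold pv at h
  exact Nat.pair_eq_pair.1 h

theorem exists_pv (n : ℕ) : ∃ v d, n = pv v d :=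
  ⟨n.unpair.1, n.unpair.2, (Nat.pair_unpair n).symm⟩

theorem G_pv (x : ℕ → ℝ) (φ : ℕ → ℝ → ℝ) (v d : ℕ) :
    G x φ (pv v d) = φ d (X x (v + 1)) - φ d (X x v) := by
  unfold G pv
  rw [Nat.unpair_pair]

/-- the two levels over `s` -/
def TT (s : List ℕ) (c c' : ℕ) : Finset ℕ :=
  s.toFinset.image (fun v => pv v c) ∪ s.toFinset.image (fun v => pv v c')

theorem sum_TT (y : ℕ → ℝ) (s : List ℕ) {c c' : ℕ} (hc : c ≠ c') :
    ∑ n ∈ TT s c c', y n = ∑ v ∈ s.toFinset, y (pv v c) + ∑ v ∈ s.toFinset, y (pv v c') := by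
  unfold TT
  rw [Finset.sum_union, Finset.sum_image, Finset.sum_image]
  · intro a _ b _ h
    exact (pv_inj h).1
  · intro a _ b _ h
    exact (pv_inj h).1
  · rw [Finset.disjoint_left]
    intro n h1 h2
    obtain ⟨v, _, rfl⟩ := Finset.mem_image.1 h1
    obtain ⟨w, _, hw⟩ := Finset.mem_image.1 h2
    exact hc (pv_inj hw).2.symm

theorem mem_TT {s : List ℕ} {c c' n : ℕ} :
    n ∈ TT s c c' ↔ ∃ v ∈ s, n = pv v c ∨ n = pv v c' := by
  unfold TT
  rw [Finset.mem_union, Finset.mem_image, Finset.mem_image]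
  constructor
  · rintro (⟨v, hv, rfl⟩ | ⟨v, hv, rfl⟩)
    · exact ⟨v, List.mem_toFinset.1 hv, Or.inl rfl⟩
    · exact ⟨v, List.mem_toFinset.1 hv, Or.inr rfl⟩
  · rintro ⟨v, hv, rfl | rfl⟩
    · exact Or.inl ⟨v, List.mem_toFinset.2 hv, rfl⟩
    · exact Or.inr ⟨v, List.mem_toFinset.2 hv, rfl⟩

section mem

variable {s : List ℕ} {x : ℕ → ℝ} {φ : ℕ → ℝ → ℝ} {c c' : ℕ} {μ : ℝ}

theorem G_c (hx : Pt x s) (hφ : Sh φ c c' μ) (v : ℕ) :
    G x φ (pv v c) = min μ (X x (v + 1)) - min μ (X x v) := by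
  rw [G_pv, (hφ _ (X_nonneg hx.1 _) (X_le_one hx _)).1, (hφ _ (X_nonneg hx.1 _) (X_le_one hx _)).1]

theorem G_c' (hx : Pt x s) (hφ : Sh φ c c' μ) (v : ℕ) :
    G x φ (pv v c') = (X x (v + 1) - min μ (X x (v + 1))) - (X x v - min μ (X x v)) := by
  rw [G_pv, (hφ _ (X_nonneg hx.1 _) (X_le_one hx _)).2.1,
    (hφ _ (X_nonneg hx.1 _) (X_le_one hx _)).2.1]

theorem G_d (hx : Pt x s) (hφ : Sh φ c c' μ) (v d : ℕ) (h1 : d ≠ c) (h2 : d ≠ c') :
    G x φ (pv v d) = 0 := by
  rw [G_pv, (hφ _ (X_nonneg hx.1 _) (X_le_one hx _)).2.2 d h1 h2,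
    (hφ _ (X_nonneg hx.1 _) (X_le_one hx _)).2.2 d h1 h2, sub_zero]

theorem mem_prism (hs : s.Pairwise (· < ·)) (hx : Pt x s) (hc : c ≠ c') (h0 : 0 ≤ μ)
    (hφ : Sh φ c c' μ) : ∃ S ∈ prism s c c', Pt (G x φ) S := by
  classical
  have hne : 0 < s.length := by
    rcases s with _ | ⟨a, s⟩
    · have := hx.2.2
      simp at this
    · simp
  have hlt : ∀ k l (hk : k < s.length) (hl : l < s.length), k < l → s[k] < s[l] :=
    fun k l hk hl hkl => List.pairwise_iff_getElem.1 hs k l hk hl hkl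
  let P : ℕ → Prop := fun k => ∃ h : k < s.length, X x s[k] ≤ μ
  have hP0 : P 0 := ⟨hne, by
    have : X x s[0] = 0 := by
      refine Finset.sum_eq_zero fun u hu => hx.2.1 u fun hus => ?_
      obtain ⟨k, hk, rfl⟩ := List.getElem_of_mem hus
      have := Finset.mem_range.1 hu
      rcases Nat.eq_zero_or_pos k with rfl | hk0
      · exact lt_irrefl _ this
      · exact lt_asymm this (hlt 0 k hne hk hk0)
    rw [this]
    exact h0⟩
  obtain ⟨i, hil, hXi, hgt⟩ : ∃ i, ∃ hil : i < s.length, X x s[i] ≤ μ ∧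
      ∀ k (hk : k < s.length), i < k → μ < X x s[k] := by
    have hPi : P (Nat.findGreatest P s.length) := Nat.findGreatest_spec (Nat.zero_le _) hP0
    obtain ⟨hil, hXi⟩ := hPi
    refine ⟨_, hil, hXi, ?_⟩
    intro k hk hik
    by_contra hcon
    exact Nat.findGreatest_is_greatest hik hk.le ⟨hk, not_lt.1 hcon⟩
  have hmono := X_mono hx.1
  have hns : ∀ v, v ∉ s → X x (v + 1) = X x v := fun v hv => by
    rw [X_succ, hx.2.1 v hv, add_zero]
  have hoff : ∀ n, n ∉ (s.take (i + 1)).map (fun v => pv v c) ++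
      (s.drop i).map (fun v => pv v c') → G x φ n = 0 := by
    intro n hn
    rw [List.mem_append, not_or] at hn
    obtain ⟨v, d, rfl⟩ := exists_pv n
    by_cases hv : v ∈ s
    · obtain ⟨k, hk, rfl⟩ := List.getElem_of_mem hv
      by_cases hdc : d = c
      · subst hdc
        rw [G_c hx hφ]
        have hik : i < k := by
          by_contra hcon
          refine hn.1 (List.mem_map.2 ⟨s[k], ?_, rfl⟩)
          rw [List.mem_take_iff_getElem]
          exact ⟨k, by omega, rfl⟩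
        have h1 := hgt k hk hik
        have h2 := hmono (Nat.le_succ s[k])
        rw [min_eq_left h1.le, min_eq_left (le_trans h1.le h2), sub_self]
      · by_cases hdc' : d = c'
        · subst hdc'
          rw [G_c' hx hφ]
          have hik : k < i := by
            by_contra hcon
            refine hn.2 (List.mem_map.2 ⟨s[k], ?_, rfl⟩)
            rw [List.mem_drop_iff_getElem]
            exact ⟨k - i, by omega, by congr 1; omega⟩
          have h1 := hlt k i hk hil hik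
          have h2 : X x (s[k] + 1) ≤ μ := le_trans (hmono h1) hXi
          have h3 : X x s[k] ≤ μ := le_trans (hmono (Nat.le_succ s[k])) h2
          rw [min_eq_right h2, min_eq_right h3]
          ring
        · exact G_d hx hφ _ _ hdc hdc'
    · rw [G_pv, hns v hv, sub_self]
  refine ⟨(s.take (i + 1)).map (fun v => pv v c) ++ (s.drop i).map (fun v => pv v c'),
    List.mem_map.2 ⟨i, List.mem_range.2 hil, rfl⟩, ?_, hoff, ?_⟩
  · intro n
    obtain ⟨v, d, rfl⟩ := exists_pv n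
    have h2 := hmono (Nat.le_succ v)
    by_cases hdc : d = c
    · subst hdc
      rw [G_c hx hφ]
      have := min_le_min_left μ h2
      linarith
    · by_cases hdc' : d = c'
      · subst hdc'
        rw [G_c' hx hφ]
        rcases le_total μ (X x (v + 1)) with h | h
        · rw [min_eq_left h]
          rcases le_total μ (X x v) with h' | h'
          · rw [min_eq_left h']
            linarith
          · rw [min_eq_right h']
            linarith
        · rw [min_eq_right h, min_eq_right (le_trans h2 h)]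
          linarith
      · rw [G_d hx hφ _ _ hdc hdc']
  · rw [sum_eq _ (TT s c c') (fun n hn => hoff n fun h => hn (List.mem_toFinset.2 h)), sum_TT _ _ hc,
      ← Finset.sum_add_distrib, ← hx.2.2]
    · refine Finset.sum_congr rfl fun v _ => ?_
      rw [G_c hx hφ, G_c' hx hφ, X_succ]
      ring
    · intro n hn
      obtain ⟨v, d, rfl⟩ := exists_pv n
      by_cases hv : v ∈ s
      · by_cases hdc : d = c
        · exact absurd (mem_TT.2 ⟨v, hv, Or.inl (by rw [hdc])⟩) hn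
        · by_cases hdc' : d = c'
          · exact absurd (mem_TT.2 ⟨v, hv, Or.inr (by rw [hdc'])⟩) hn
          · exact G_d hx hφ _ _ hdc hdc'
      · rw [G_pv, hns v hv, sub_self]

end mem

section surj

variable {s : List ℕ} {c c' : ℕ}

theorem surj_prism (hs : s.Pairwise (· < ·)) (hc : c ≠ c') {S : List ℕ} (hS : S ∈ prism s c c')
    {y : ℕ → ℝ} (hy : Pt y S) : ∃ (x : ℕ → ℝ) (μ : ℝ), Pt x s ∧ 0 ≤ μ ∧ μ ≤ 1 ∧
      ∀ φ, Sh φ c c' μ → G x φ = y := by
  classical
  obtain ⟨i, hi, rfl⟩ := List.mem_map.1 hS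
  have hil := List.mem_range.1 hi
  have hlt : ∀ k l (hk : k < s.length) (hl : l < s.length), k < l → s[k] < s[l] :=
    fun k l hk hl hkl => List.pairwise_iff_getElem.1 hs k l hk hl hkl
  have hmem : ∀ n, n ∈ (s.take (i + 1)).map (fun v => pv v c) ++
      (s.drop i).map (fun v => pv v c') → (∃ u ∈ s, u ≤ s[i] ∧ n = pv u c) ∨
        (∃ u ∈ s, s[i] ≤ u ∧ n = pv u c') := by
    intro n hn
    rcases List.mem_append.1 hn with h | h
    · left
      obtain ⟨u, hu, rfl⟩ := List.mem_map.1 h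
      rw [List.mem_take_iff_getElem] at hu
      obtain ⟨k, hk, rfl⟩ := hu
      have hk' : k < s.length := by omega
      refine ⟨s[k], List.getElem_mem hk', ?_, rfl⟩
      rcases Nat.lt_or_ge k i with h' | h'
      · exact (hlt k i hk' hil h').le
      · have : k = i := by omega
        subst this
        exact le_rfl
    · right
      obtain ⟨u, hu, rfl⟩ := List.mem_map.1 h
      rw [List.mem_drop_iff_getElem] at hu
      obtain ⟨k, hk, rfl⟩ := hu
      refine ⟨_, List.getElem_mem _, ?_, rfl⟩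
      rcases Nat.eq_zero_or_pos k with h' | h'
      · subst h'
        exact le_of_eq (by congr 1)
      · exact (hlt i (i + k) hil (by omega) (by omega)).le
  have hyc : ∀ u, (u ∉ s ∨ s[i] < u) → y (pv u c) = 0 := by
    intro u hu
    refine hy.2.1 _ fun h => ?_
    rcases hmem _ h with ⟨w, hw, hwi, he⟩ | ⟨w, hw, hwi, he⟩
    · obtain ⟨rfl, -⟩ := pv_inj he
      rcases hu with hu | hu
      · exact hu hw
      · exact absurd hwi (not_le.2 hu)
    · exact hc (pv_inj he).2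
  have hyc' : ∀ u, (u ∉ s ∨ u < s[i]) → y (pv u c') = 0 := by
    intro u hu
    refine hy.2.1 _ fun h => ?_
    rcases hmem _ h with ⟨w, hw, hwi, he⟩ | ⟨w, hw, hwi, he⟩
    · exact hc (pv_inj he).2.symm
    · obtain ⟨rfl, -⟩ := pv_inj he
      rcases hu with hu | hu
      · exact hu hw
      · exact absurd hwi (not_le.2 hu)
  have hsumT : ∑ v ∈ s.toFinset, y (pv v c) + ∑ v ∈ s.toFinset, y (pv v c') = 1 := by
    rw [← sum_TT y s hc, ← hy.2.2]
    refine sum_eq _ _ (fun n hn => hy.2.1 n fun h => hn ?_)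
      (fun n hn => hy.2.1 n fun h => hn (List.mem_toFinset.2 h))
    rcases hmem n h with ⟨u, hu, -, rfl⟩ | ⟨u, hu, -, rfl⟩
    · exact mem_TT.2 ⟨u, hu, Or.inl rfl⟩
    · exact mem_TT.2 ⟨u, hu, Or.inr rfl⟩
  have hxPt : Pt (fun v => y (pv v c) + y (pv v c')) s :=
    ⟨fun v => add_nonneg (hy.1 _) (hy.1 _),
      fun v hv => by
        change y (pv v c) + y (pv v c') = 0
        rw [hyc v (Or.inl hv), hyc' v (Or.inl hv), add_zero],
      by rw [Finset.sum_add_distrib, hsumT]⟩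
  have hcs : 0 ≤ ∑ v ∈ s.toFinset, y (pv v c) := Finset.sum_nonneg fun v _ => hy.1 _
  have hcs' : 0 ≤ ∑ v ∈ s.toFinset, y (pv v c') := Finset.sum_nonneg fun v _ => hy.1 _
  refine ⟨fun v => y (pv v c) + y (pv v c'), ∑ v ∈ s.toFinset, y (pv v c), hxPt, hcs,
    by linarith, ?_⟩
  have hX : ∀ n, X (fun v => y (pv v c) + y (pv v c')) n =
      X (fun v => y (pv v c)) n + X (fun v => y (pv v c')) n := fun n =>
    Finset.sum_add_distrib
  have hmin : ∀ n, min (∑ v ∈ s.toFinset, y (pv v c)) (X (fun v => y (pv v c) + y (pv v c')) n) =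
      X (fun v => y (pv v c)) n := by
    intro n
    rw [hX]
    rcases Nat.lt_or_ge s[i] n with h | h
    · have h1 : X (fun v => y (pv v c)) n = ∑ v ∈ s.toFinset, y (pv v c) := by
        refine sum_eq _ _ (fun u hu => hyc u (Or.inr ?_)) (fun u hu => hyc u (Or.inl ?_))
        · by_contra h'
          exact hu (Finset.mem_range.2 (lt_of_le_of_lt (not_lt.1 h') h))
        · exact fun h' => hu (List.mem_toFinset.2 h')
      rw [h1, min_eq_left]
      have := X_nonneg (x := fun v => y (pv v c')) (fun v => hy.1 _) n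
      linarith
    · have h1 : X (fun v => y (pv v c')) n = 0 :=
        Finset.sum_eq_zero fun u hu => hyc' u (Or.inr (lt_of_lt_of_le (Finset.mem_range.1 hu) h))
      rw [h1, add_zero, min_eq_right]
      exact X_le_sum (x := fun v => y (pv v c)) (fun v => hy.1 _) _
        (fun u hu => hyc u (Or.inl fun h' => hu (List.mem_toFinset.2 h'))) n
  intro φ hφ
  funext n
  obtain ⟨v, d, rfl⟩ := exists_pv n
  by_cases hdc : d = c
  · subst hdc
    rw [G_c hxPt hφ, hmin, hmin, X_succ]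
    ring
  · by_cases hdc' : d = c'
    · subst hdc'
      rw [G_c' hxPt hφ, hmin, hmin, X_succ, X_succ]
      ring
    · rw [G_d hxPt hφ _ _ hdc hdc']
      symm
      refine hy.2.1 _ fun h => ?_
      rcases hmem _ h with ⟨w, hw, hwi, he⟩ | ⟨w, hw, hwi, he⟩
      · exact hdc (pv_inj he).2
      · exact hdc' (pv_inj he).2

end surj

theorem G_p0 (x : ℕ → ℝ) (v d : ℕ) : G x p0 (pv v d) = if d = 0 then x v else 0 := by
  rw [G_pv]
  unfold p0
  by_cases h : d = 0
  · rw [if_pos h, if_pos h, if_pos h, X_succ]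
    ring
  · rw [if_neg h, if_neg h, if_neg h, sub_zero]

theorem mem_base {s : List ℕ} {x : ℕ → ℝ} (hx : Pt x s) :
    Pt (G x p0) (s.map fun v => pv v 0) := by
  classical
  have hoff : ∀ n, n ∉ (s.map fun v => pv v 0) → G x p0 n = 0 := by
    intro n hn
    obtain ⟨v, d, rfl⟩ := exists_pv n
    rw [G_p0]
    by_cases h : d = 0
    · subst h
      rw [if_pos rfl]
      exact hx.2.1 v fun hv => hn (List.mem_map.2 ⟨v, hv, rfl⟩)
    · rw [if_neg h]
  refine ⟨?_, hoff, ?_⟩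
  · intro n
    obtain ⟨v, d, rfl⟩ := exists_pv n
    rw [G_p0]
    split_ifs
    · exact hx.1 v
    · exact le_rfl
  · rw [sum_eq _ (s.toFinset.image fun v => pv v 0)
      (fun n hn => hoff n fun h => hn (List.mem_toFinset.2 h))
      (fun n hn => hoff n fun h => hn ?_), Finset.sum_image, ← hx.2.2]
    · refine Finset.sum_congr rfl fun v _ => ?_
      rw [G_p0, if_pos rfl]
    · intro a _ b _ h
      exact (pv_inj h).1
    · obtain ⟨v, hv, rfl⟩ := List.mem_map.1 h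
      exact Finset.mem_image.2 ⟨v, List.mem_toFinset.2 hv, rfl⟩

theorem surj_base {s : List ℕ} {y : ℕ → ℝ} (hy : Pt y (s.map fun v => pv v 0)) :
    ∃ x, Pt x s ∧ G x p0 = y := by
  classical
  have h0 : ∀ v d, (d ≠ 0 ∨ v ∉ s) → y (pv v d) = 0 := by
    intro v d h
    refine hy.2.1 _ fun h' => ?_
    obtain ⟨w, hw, he⟩ := List.mem_map.1 h'
    obtain ⟨rfl, rfl⟩ := pv_inj he
    rcases h with h | h
    · exact h rfl
    · exact h hw
  refine ⟨fun v => y (pv v 0), ⟨fun v => hy.1 _, fun v hv => h0 v 0 (Or.inr hv), ?_⟩, ?_⟩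
  · rw [← hy.2.2, ← Finset.sum_image (f := y) (g := fun v => pv v 0)]
    · refine sum_eq _ _ (fun n hn => hy.2.1 n fun h => hn ?_)
        (fun n hn => hy.2.1 n fun h => hn (List.mem_toFinset.2 h))
      obtain ⟨v, hv, rfl⟩ := List.mem_map.1 h
      exact Finset.mem_image.2 ⟨v, List.mem_toFinset.2 hv, rfl⟩
    · intro a _ b _ h
      exact (pv_inj h).1
  · funext n
    obtain ⟨v, d, rfl⟩ := exists_pv n
    rw [G_p0]
    by_cases h : d = 0
    · rw [if_pos h, h]
    · rw [if_neg h, h0 v d (Or.inl h)]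

theorem mem_prod3 {K : List (List ℕ)} {J : ℕ} {S : List ℕ} :
    S ∈ prod3 K J ↔ (∃ s ∈ K, S = s.map fun v => pv v 0) ∨
      ∃ j < J, ∃ s ∈ K, ∃ c c', Ed j c c' ∧ S ∈ prism s c c' := by
  unfold prod3
  rw [List.mem_append, List.mem_map, List.mem_flatMap]
  refine or_congr ⟨fun ⟨s, hs, h⟩ => ⟨s, hs, h.symm⟩, fun ⟨s, hs, h⟩ => ⟨s, hs, h.symm⟩⟩ ?_
  constructor
  · rintro ⟨j, hj, h⟩
    obtain ⟨s, hs, h⟩ := List.mem_flatMap.1 h
    refine ⟨j, List.mem_range.1 hj, s, hs, ?_⟩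
    rcases List.mem_append.1 h with h | h
    · exact ⟨_, _, Or.inl ⟨rfl, rfl⟩, h⟩
    · rcases List.mem_append.1 h with h | h
      · exact ⟨_, _, Or.inr (Or.inl ⟨rfl, rfl⟩), h⟩
      · exact ⟨_, _, Or.inr (Or.inr ⟨rfl, rfl⟩), h⟩
  · rintro ⟨j, hj, s, hs, c, c', h, hS⟩
    refine ⟨j, List.mem_range.2 hj, List.mem_flatMap.2 ⟨s, hs, ?_⟩⟩
    rcases h with ⟨rfl, rfl⟩ | ⟨rfl, rfl⟩ | ⟨rfl, rfl⟩
    · exact List.mem_append_left _ hS
    · exact List.mem_append_right _ (List.mem_append_left _ hS)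
    · exact List.mem_append_right _ (List.mem_append_right _ hS)

theorem Rz_compact (K : List (List ℕ)) : CompactSpace (Rz K) := by
  have h : IsCompact {x : ℕ → ℝ | (∀ i, 0 ≤ x i) ∧ ∃ s ∈ K, (∀ i, i ∉ s → x i = 0) ∧
      ∑ i ∈ s.toFinset, x i = 1} := by
    have he : {x : ℕ → ℝ | (∀ i, 0 ≤ x i) ∧ ∃ s ∈ K, (∀ i, i ∉ s → x i = 0) ∧
      ∑ i ∈ s.toFinset, x i = 1} = ⋃ s ∈ {s | s ∈ K}, {x : ℕ → ℝ | Pt x s} := by
      ext x
      simp only [Set.mem_ofPred_eq, Set.mem_iUnion, Pt]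
      constructor
      · rintro ⟨h0, s, hs, h1, h2⟩
        exact ⟨s, hs, h0, h1, h2⟩
      · rintro ⟨s, hs, h0, h1, h2⟩
        exact ⟨h0, s, hs, h1, h2⟩
    rw [he]
    refine (List.finite_toSet K).isCompact_biUnion fun s _ => ?_
    refine IsCompact.of_isClosed_subset (isCompact_univ_pi fun _ : ℕ => isCompact_Icc
      (a := (0 : ℝ)) (b := 1)) ?_ ?_
    · refine IsClosed.inter ?_ (IsClosed.inter ?_ ?_)
      · change IsClosed {x : ℕ → ℝ | ∀ i, 0 ≤ x i}
        simp only [Set.ofPred_forall]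
        exact isClosed_iInter fun i => isClosed_le continuous_const (continuous_apply i)
      · change IsClosed {x : ℕ → ℝ | ∀ i, i ∉ s → x i = 0}
        simp only [Set.ofPred_forall]
        exact isClosed_iInter fun i => isClosed_iInter fun _ =>
          isClosed_eq (continuous_apply i) continuous_const
      · change IsClosed {x : ℕ → ℝ | ∑ i ∈ s.toFinset, x i = 1}
        exact isClosed_eq (continuous_finsetSum _ fun i _ => continuous_apply i) continuous_const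
    · intro x hx i _
      refine ⟨hx.1 i, ?_⟩
      by_cases hi : i ∈ s
      · rw [← hx.2.2]
        exact Finset.single_le_sum (fun j _ => hx.1 j) (List.mem_toFinset.2 hi)
      · rw [hx.2.1 i hi]
        exact zero_le_one
  exact isCompact_iff_compactSpace.1 h

theorem Rz_t2 (K : List (List ℕ)) : T2Space (Rz K) :=
  inferInstanceAs (T2Space {x : ℕ → ℝ // (∀ i, 0 ≤ x i) ∧ ∃ s ∈ K, (∀ i, i ∉ s → x i = 0) ∧
    ∑ i ∈ s.toFinset, x i = 1})

theorem Rz_pt {K : List (List ℕ)} (x : Rz K) : ∃ s ∈ K, Pt x.1 s := by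
  obtain ⟨x, h0, s, hs, h1, h2⟩ := x
  exact ⟨s, hs, h0, h1, h2⟩

theorem ph_zero (j c : ℕ) (t : ℝ) : ph j t c 0 = 0 := by
  have h : ∀ a, mm a 0 = 0 := fun a => min_eq_right (le_max_right _ _)
  unfold ph
  rw [h, h, h]
  simp

theorem G_congr {x : ℕ → ℝ} {s : List ℕ} (hx : Pt x s) {φ ψ : ℕ → ℝ → ℝ}
    (h : ∀ c X, 0 ≤ X → X ≤ 1 → φ c X = ψ c X) : G x φ = G x ψ := by
  funext n
  unfold G
  rw [h _ _ (X_nonneg hx.1 _) (X_le_one hx _), h _ _ (X_nonneg hx.1 _) (X_le_one hx _)]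

theorem ph_t0 (j c : ℕ) (X : ℝ) (h0 : 0 ≤ X) (h1 : X ≤ 1) : ph j 0 c X = p0 c X := by
  unfold ph p0
  rw [mm_one (1 - 3 * 0) X (by norm_num) h1, mm_one (3 - 3 * 0) X (by norm_num) h1,
    mm_one (2 - 3 * 0) X (by norm_num) h1]
  simp

theorem ph_t1 (j c : ℕ) (X : ℝ) (h0 : 0 ≤ X) (h1 : X ≤ 1) : ph j 1 c X = p0 c X := by
  unfold ph p0
  rw [mm_zero (1 - 3 * 1) X (by norm_num) h0, mm_zero (3 - 3 * 1) X (by norm_num) h0,
    mm_zero (2 - 3 * 1) X (by norm_num) h0]
  simp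

variable (K : List (List ℕ)) (J : ℕ) (hK : ∀ s ∈ K, s.Pairwise (· < ·))

include hK in
theorem mem_ph (x : Rz K) (j : Fin J) (t : I) : (∀ i, 0 ≤ G x.1 (ph j t) i) ∧
    ∃ s ∈ prod3 K J, (∀ i, i ∉ s → G x.1 (ph j t) i = 0) ∧
      ∑ i ∈ s.toFinset, G x.1 (ph j t) i = 1 := by
  obtain ⟨s, hs, hx⟩ := Rz_pt x
  obtain ⟨c, c', μ, he, h0, h1, hsh⟩ := edge_of_t j t t.2.1 t.2.2
  obtain ⟨S, hS, h⟩ := mem_prism (hK s hs) hx he.ne h0 hsh
  exact ⟨h.1, S, mem_prod3.2 (Or.inr ⟨j, j.2, s, hs, c, c', he, hS⟩), h.2.1, h.2.2⟩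

theorem mem_p0 (x : Rz K) : (∀ i, 0 ≤ G x.1 p0 i) ∧
    ∃ s ∈ prod3 K J, (∀ i, i ∉ s → G x.1 p0 i = 0) ∧
      ∑ i ∈ s.toFinset, G x.1 p0 i = 1 := by
  obtain ⟨s, hs, hx⟩ := Rz_pt x
  have h := mem_base hx
  exact ⟨h.1, _, mem_prod3.2 (Or.inl ⟨s, hs, rfl⟩), h.2.1, h.2.2⟩

/-- the map on the disjoint union -/
def rp : (Rz K ⊕ (Rz K × (Fin J × I))) → Rz (prod3 K J) :=
  Sum.elim (fun x => ⟨G x.1 p0, mem_p0 K J x⟩)
    (fun q => ⟨G q.1.1 (ph q.2.1 q.2.2), mem_ph K J hK q.1 q.2.1 q.2.2⟩)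

theorem cont_X (n : ℕ) : Continuous fun x : Rz K => X x.1 n := by
  unfold X
  exact continuous_finsetSum _ fun i _ => (continuous_apply i).comp continuous_subtype_val

theorem cont_ph (j c : ℕ) (n : ℕ) :
    Continuous fun q : Rz K × I => ph j q.2 c (X q.1.1 n) := by
  have hX : Continuous fun q : Rz K × I => X q.1.1 n := (cont_X K n).comp continuous_fst
  have ht : Continuous fun q : Rz K × I => (q.2 : ℝ) := continuous_subtype_val.comp continuous_snd
  have hm : ∀ a : ℝ, Continuous fun q : Rz K × I => mm (a - 3 * q.2) (X q.1.1 n) := fun a => by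
    unfold mm
    exact Continuous.min (Continuous.max (by fun_prop) continuous_const) hX
  unfold ph
  split_ifs
  · exact (hm 1).add (hX.sub (hm 3))
  · exact (hm 2).sub (hm 1)
  · exact (hm 3).sub (hm 2)
  · exact continuous_const

theorem cont_rp : Continuous (rp K J hK) := by
  refine Continuous.sumElim ?_ ?_
  · refine Continuous.subtype_mk (continuous_pi fun n => ?_) _
    unfold G p0
    split_ifs
    · exact (cont_X K _).sub (cont_X K _)
    · exact continuous_const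
  · have h : Continuous fun q : Fin J × (Rz K × I) =>
        (⟨G q.2.1.1 (ph q.1 q.2.2), mem_ph K J hK q.2.1 q.1 q.2.2⟩ : Rz (prod3 K J)) := by
      refine continuous_prod_of_discrete_left.2 fun j => ?_
      refine Continuous.subtype_mk (continuous_pi fun n => ?_) _
      unfold G
      exact (cont_ph K j _ _).sub (cont_ph K j _ _)
    exact h.comp (f := fun q : Rz K × (Fin J × I) => (q.2.1, (q.1, q.2.2))) (by fun_prop)

/-- the map `r` -/
def rr : C(Cy (Rz K) J, Rz (prod3 K J)) where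
  toFun := Quot.lift (rp K J hK) (by
    intro a b h
    induction h with
    | zero x j =>
      obtain ⟨s, hs, hx⟩ := Rz_pt x
      refine Subtype.ext ?_
      exact G_congr hx fun c X h0 h1 => ph_t0 j c X h0 h1
    | one x j =>
      obtain ⟨s, hs, hx⟩ := Rz_pt x
      refine Subtype.ext ?_
      exact G_congr hx fun c X h0 h1 => ph_t1 j c X h0 h1)
  continuous_toFun := continuous_quot_lift _ (cont_rp K J hK)

theorem rr_surj : Function.Surjective (rr K J hK) := by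
  intro y
  obtain ⟨S, hS, hy⟩ := Rz_pt y
  rcases mem_prod3.1 hS with ⟨s, hs, rfl⟩ | ⟨j, hj, s, hs, c, c', he, hS'⟩
  · obtain ⟨x, hx, hG⟩ := surj_base hy
    exact ⟨Quot.mk _ (Sum.inl ⟨x, hx.1, s, hs, hx.2.1, hx.2.2⟩), Subtype.ext hG⟩
  · obtain ⟨x, μ, hx, h0, h1, h⟩ := surj_prism (hK s hs) he.ne hS' hy
    obtain ⟨t, ht0, ht1, hsh⟩ := t_of_edge j c c' he μ h0 h1
    exact ⟨Quot.mk _ (Sum.inr (⟨x, hx.1, s, hs, hx.2.1, hx.2.2⟩, (⟨j, hj⟩, ⟨t, ht0, ht1⟩))),
      Subtype.ext (h _ hsh)⟩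

/-- sum over the levels recovers the point -/
theorem sum_G {x : ℕ → ℝ} {s : List ℕ} (hx : Pt x s) {φ : ℕ → ℝ → ℝ} {C : ℕ}
    (h : ∀ X, 0 ≤ X → X ≤ 1 → ∑ c ∈ Finset.range C, φ c X = X) (v : ℕ) :
    ∑ c ∈ Finset.range C, G x φ (pv v c) = x v := by
  have h1 : ∀ c ∈ Finset.range C, G x φ (pv v c) = φ c (X x (v + 1)) - φ c (X x v) :=
    fun c _ => G_pv x φ v c
  rw [Finset.sum_congr rfl h1, Finset.sum_sub_distrib, h _ (X_nonneg hx.1 _) (X_le_one hx _),
    h _ (X_nonneg hx.1 _) (X_le_one hx _), X_succ]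
  ring

/-- level weights -/
theorem weight_G {x : ℕ → ℝ} {s : List ℕ} (hx : Pt x s) {φ : ℕ → ℝ → ℝ} (c : ℕ)
    (h : φ c 0 = 0) (N : ℕ) (hN : ∀ i ∈ s, i < N) :
    ∑ v ∈ Finset.range N, G x φ (pv v c) = φ c 1 := by
  have h1 : ∀ v ∈ Finset.range N, G x φ (pv v c) = φ c (X x (v + 1)) - φ c (X x v) :=
    fun v _ => G_pv x φ v c
  rw [Finset.sum_congr rfl h1, Finset.sum_range_sub (fun v => φ c (X x v)), X_zero, h, sub_zero,
    X_eq_one hx N hN]

theorem sum_ph (j : Fin J) (t : I) (X : ℝ) (h0 : 0 ≤ X) (h1 : X ≤ 1) :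
    ∑ c ∈ Finset.range (2 * J + 1), ph j t c X = X := by
  obtain ⟨c, c', μ, he, -, -, hsh⟩ := edge_of_t j t t.2.1 t.2.2
  obtain ⟨e1, e2, e3⟩ := hsh X h0 h1
  have hj := j.2
  rw [Finset.sum_eq_add c c' he.ne (fun d _ hd => e3 d hd.1 hd.2), e1, e2]
  · ring
  · intro h
    refine absurd (Finset.mem_range.2 ?_) h
    unfold Ed at he
    omega
  · intro h
    refine absurd (Finset.mem_range.2 ?_) h
    unfold Ed at he
    omega

theorem sum_p0 (X : ℝ) (_ : 0 ≤ X) (_ : X ≤ 1) :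
    ∑ c ∈ Finset.range (2 * J + 1), p0 c X = X := by
  rw [Finset.sum_eq_single 0]
  · exact if_pos rfl
  · intro c _ hc
    exact if_neg hc
  · intro h
    exact absurd (Finset.mem_range.2 (by omega)) h

/-- comparison of two points -/
theorem inj_key {x x' : ℕ → ℝ} {s s' : List ℕ} (hx : Pt x s) (hx' : Pt x' s')
    {φ φ' : ℕ → ℝ → ℝ} {C : ℕ} (h : ∀ X, 0 ≤ X → X ≤ 1 → ∑ c ∈ Finset.range C, φ c X = X)
    (h' : ∀ X, 0 ≤ X → X ≤ 1 → ∑ c ∈ Finset.range C, φ' c X = X) (h0 : ∀ c, φ c 0 = 0)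
    (h0' : ∀ c, φ' c 0 = 0) (he : G x φ = G x' φ') : x = x' ∧ ∀ c, φ c 1 = φ' c 1 := by
  constructor
  · funext v
    rw [← sum_G hx h v, ← sum_G hx' h' v, he]
  · intro c
    obtain ⟨N, hN⟩ : ∃ N, ∀ i, (i ∈ s ∨ i ∈ s') → i < N := by
      refine ⟨(s ++ s').sum + 1, fun i hi => Nat.lt_succ_of_le ?_⟩
      exact List.le_sum_of_mem (List.mem_append.2 hi)
    rw [← weight_G hx c (h0 c) N fun i hi => hN i (Or.inl hi),
      ← weight_G hx' c (h0' c) N fun i hi => hN i (Or.inr hi), he]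

theorem ph1 (j : ℕ) (t : ℝ) (h0 : 0 ≤ t) (h1 : t ≤ 1) :
    (t ≤ 1 / 3 ∧ ph j t (2 * j + 1) 1 = 3 * t ∧ ph j t (2 * j + 2) 1 = 0) ∨
    (1 / 3 ≤ t ∧ t ≤ 2 / 3 ∧ ph j t (2 * j + 1) 1 = 2 - 3 * t ∧
      ph j t (2 * j + 2) 1 = 3 * t - 1) ∨
    (2 / 3 ≤ t ∧ ph j t (2 * j + 1) 1 = 0 ∧ ph j t (2 * j + 2) 1 = 3 - 3 * t) := by
  rcases le_total t (1 / 3) with h | h
  · left
    have := sh0 j (1 - 3 * t) (by linarith) (by linarith) 1 zero_le_one le_rfl
    rw [show (1 - (1 - 3 * t)) / 3 = t by ring] at this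
    refine ⟨h, ?_, this.2.2 _ (by omega) (by omega)⟩
    rw [this.2.1, min_eq_left (by linarith)]
    ring
  · rcases le_total t (2 / 3) with h' | h'
    · right
      left
      have := sh1 j (2 - 3 * t) (by linarith) (by linarith) 1 zero_le_one le_rfl
      rw [show (2 - (2 - 3 * t)) / 3 = t by ring] at this
      refine ⟨h, h', ?_, ?_⟩
      · rw [this.1, min_eq_left (by linarith)]
      · rw [this.2.1, min_eq_left (by linarith)]
        ring
    · right
      right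
      have := sh2 j (3 - 3 * t) (by linarith) (by linarith) 1 zero_le_one le_rfl
      rw [show (3 - (3 - 3 * t)) / 3 = t by ring] at this
      refine ⟨h', this.2.2 _ (by omega) (by omega), ?_⟩
      rw [this.1, min_eq_left (by linarith)]

theorem t_zero (j : ℕ) (t : I) (h1 : ph j t (2 * j + 1) 1 = 0) (h2 : ph j t (2 * j + 2) 1 = 0) :
    t = 0 ∨ t = 1 := by
  rcases ph1 j t t.2.1 t.2.2 with ⟨a, b, c⟩ | ⟨a, a', b, c⟩ | ⟨a, b, c⟩
  · left
    refine Subtype.ext ?_
    change (t : ℝ) = 0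
    linarith
  · exfalso
    linarith
  · right
    refine Subtype.ext ?_
    change (t : ℝ) = 1
    linarith

theorem t_eq (j : ℕ) (t t' : I) (h1 : ph j t (2 * j + 1) 1 = ph j t' (2 * j + 1) 1)
    (h2 : ph j t (2 * j + 2) 1 = ph j t' (2 * j + 2) 1) :
    t = t' ∨ ((t = 0 ∨ t = 1) ∧ (t' = 0 ∨ t' = 1)) := by
  by_cases hz : ph j t (2 * j + 1) 1 = 0 ∧ ph j t (2 * j + 2) 1 = 0
  · right
    exact ⟨t_zero j t hz.1 hz.2, t_zero j t' (h1 ▸ hz.1) (h2 ▸ hz.2)⟩
  · left
    refine Subtype.ext ?_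
    rcases ph1 j t t.2.1 t.2.2 with ⟨a, b, c⟩ | ⟨a, a', b, c⟩ | ⟨a, b, c⟩ <;>
    rcases ph1 j t' t'.2.1 t'.2.2 with ⟨u, v, w⟩ | ⟨u, u', v, w⟩ | ⟨u, v, w⟩ <;>
    first
    | linarith
    | exact absurd ⟨by linarith, by linarith⟩ hz

theorem mk_end {L : Type} {J : ℕ} (x : L) (j : Fin J) (t : I) (h : t = 0 ∨ t = 1) :
    (Quot.mk _ (Sum.inr (x, (j, t))) : Cy L J) = Quot.mk _ (Sum.inl x) := by
  rcases h with rfl | rfl
  · exact Quot.sound (CyRel.zero x j)
  · exact Quot.sound (CyRel.one x j)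

theorem p0_zero (c : ℕ) : p0 c 0 = 0 := by
  unfold p0
  simp

theorem ph_other (j c : ℕ) (t X : ℝ) (h0 : c ≠ 0) (h1 : c ≠ 2 * j + 1) (h2 : c ≠ 2 * j + 2) :
    ph j t c X = 0 := by
  unfold ph
  rw [if_neg h0, if_neg h1, if_neg h2]

theorem rr_inj : Function.Injective (rr K J hK) := by
  have key1 : ∀ (x x' : Rz K) (j' : Fin J) (t' : I),
      rr K J hK (Quot.mk _ (Sum.inl x)) = rr K J hK (Quot.mk _ (Sum.inr (x', (j', t')))) →
      (Quot.mk _ (Sum.inl x) : Cy (Rz K) J) = Quot.mk _ (Sum.inr (x', (j', t'))) := by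
    intro x x' j' t' h
    have hG : G x.1 p0 = G x'.1 (ph j' t') := congrArg Subtype.val h
    obtain ⟨s, hs, hx⟩ := Rz_pt x
    obtain ⟨s', hs', hx'⟩ := Rz_pt x'
    obtain ⟨e1, e2⟩ := inj_key hx hx' (sum_p0 J) (sum_ph J j' t') p0_zero
      (fun c => ph_zero j' c t') hG
    obtain rfl : x = x' := Subtype.ext e1
    rw [mk_end x j' t' (t_zero j' t' ((e2 _).symm.trans (if_neg (by omega)))
      ((e2 _).symm.trans (if_neg (by omega))))]
  intro z z' h
  induction z using Quot.ind with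
  | mk z =>
  induction z' using Quot.ind with
  | mk z' =>
  rcases z with x | ⟨x, j, t⟩
  · rcases z' with x' | ⟨x', j', t'⟩
    · have hG : G x.1 p0 = G x'.1 p0 := congrArg Subtype.val h
      obtain ⟨s, hs, hx⟩ := Rz_pt x
      obtain ⟨s', hs', hx'⟩ := Rz_pt x'
      obtain ⟨e1, e2⟩ := inj_key hx hx' (sum_p0 J) (sum_p0 J) p0_zero p0_zero hG
      obtain rfl : x = x' := Subtype.ext e1
      rfl
    · exact key1 x x' j' t' h
  · rcases z' with x' | ⟨x', j', t'⟩
    · exact (key1 x' x j t h.symm).symm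
    · have hG : G x.1 (ph j t) = G x'.1 (ph j' t') := congrArg Subtype.val h
      obtain ⟨s, hs, hx⟩ := Rz_pt x
      obtain ⟨s', hs', hx'⟩ := Rz_pt x'
      obtain ⟨e1, e2⟩ := inj_key hx hx' (sum_ph J j t) (sum_ph J j' t')
        (fun c => ph_zero j c t) (fun c => ph_zero j' c t') hG
      obtain rfl : x = x' := Subtype.ext e1
      by_cases hjj : j = j'
      · subst hjj
        rcases t_eq j t t' (e2 _) (e2 _) with rfl | ⟨h1, h2⟩
        · rfl
        · rw [mk_end x j t h1, mk_end x j t' h2]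
      · have hjj' : (j : ℕ) ≠ j' := fun h => hjj (Fin.ext h)
        have A1 : t = 0 ∨ t = 1 := t_zero j t
          (by rw [e2, ph_other _ _ _ _ (by omega) (by omega) (by omega)])
          (by rw [e2, ph_other _ _ _ _ (by omega) (by omega) (by omega)])
        have A2 : t' = 0 ∨ t' = 1 := t_zero j' t'
          (by rw [← e2, ph_other _ _ _ _ (by omega) (by omega) (by omega)])
          (by rw [← e2, ph_other _ _ _ _ (by omega) (by omega) (by omega)])
        rw [mk_end x j t A1, mk_end x j' t' A2]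

/-- the homeomorphism -/
def hh : Cy (Rz K) J ≃ₜ Rz (prod3 K J) :=
  haveI := Rz_compact K
  haveI : CompactSpace (Cy (Rz K) J) :=
    inferInstanceAs (CompactSpace (Quot (CyRel (Rz K) J)))
  haveI := Rz_t2 (prod3 K J)
  Continuous.homeoOfEquivCompactToT2 (f := Equiv.ofBijective (rr K J hK)
    ⟨rr_inj K J hK, rr_surj K J hK⟩) (rr K J hK).continuous

theorem hh_apply (z : Cy (Rz K) J) : hh K J hK z = rr K J hK z := rfl

theorem inc_val (x : Rz K) (v d : ℕ) :
    (hh K J hK (Cy.inc _ J x)).1 (pv v d) = if d = 0 then x.1 v else 0 := G_p0 x.1 v d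

theorem base_val (v : ℕ) (b : Rz K) (hb : b.1 = Pi.single v 1) :
    (hh K J hK (Cy.inc _ J b)).1 = Pi.single (pv v 0) 1 := by
  funext n
  obtain ⟨u, d, rfl⟩ := exists_pv n
  rw [inc_val, hb]
  by_cases h : d = 0
  · subst h
    rw [if_pos rfl]
    by_cases hu : u = v
    · subst hu
      rw [Pi.single_eq_same, Pi.single_eq_same]
    · rw [Pi.single_eq_of_ne hu, Pi.single_eq_of_ne fun h => hu (pv_inj h).1]
  · rw [if_neg h, Pi.single_eq_of_ne fun h' => h (pv_inj h').2]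

theorem pg_map (e : List ℕ) (he : 3 ≤ e.length) (s : ℝ) (v d : ℕ) :
    pg (e.map fun u => pv u 0) s (pv v d) = if d = 0 then pg e s v else 0 := by
  have hlen : (e.map fun u => pv u 0).length = e.length := List.length_map _
  have hget : ∀ i, (e.map fun u => pv u 0).getD (i % e.length) 0 =
      pv (e.getD (i % e.length) 0) 0 := fun i => by
    have hi : i % e.length < e.length := Nat.mod_lt _ (by omega)
    rw [List.getD_eq_getElem _ _ (by rw [hlen]; exact hi), List.getD_eq_getElem _ _ hi,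
      List.getElem_map]
  unfold pg
  rw [hlen]
  by_cases h : d = 0
  · subst h
    rw [if_pos rfl]
    refine Finset.sum_congr rfl fun i _ => ?_
    rw [hget]
    by_cases hu : e.getD (i % e.length) 0 = v
    · rw [if_pos hu, if_pos (by rw [hu])]
    · rw [if_neg hu, if_neg fun h => hu (pv_inj h).1]
  · rw [if_neg h]
    refine Finset.sum_eq_zero fun i _ => ?_
    rw [hget, if_neg fun h' => h (pv_inj h').2.symm, mul_zero]

theorem X_single (v n : ℕ) : X (Pi.single v 1) n = if v < n then 1 else 0 := by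
  unfold X
  by_cases h : v < n
  · rw [if_pos h, Finset.sum_eq_single v]
    · exact Pi.single_eq_same _ _
    · intro u _ hu
      exact Pi.single_eq_of_ne hu _
    · intro h'
      exact absurd (Finset.mem_range.2 h) h'
  · rw [if_neg h]
    refine Finset.sum_eq_zero fun u hu => ?_
    have := Finset.mem_range.1 hu
    exact Pi.single_eq_of_ne (by omega) _

theorem loop_val (v : ℕ) (b : Rz K) (hb : b.1 = Pi.single v 1) (j : Fin J) (t : I) (u d : ℕ) :
    (hh K J hK (Cy.loop b j t)).1 (pv u d) = if u = v then ph j t d 1 else 0 := by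
  have h : (hh K J hK (Cy.loop b j t)).1 (pv u d) = G b.1 (ph j t) (pv u d) := rfl
  rw [h, G_pv, hb, X_single, X_single]
  rcases lt_trichotomy u v with h | h | h
  · rw [if_neg (by omega), if_neg (by omega), if_neg (by omega), sub_self]
  · rw [if_pos (by omega), if_neg (by omega), if_pos h, ph_zero, sub_zero]
  · rw [if_pos (by omega), if_pos (by omega), if_neg (by omega), sub_self]

theorem ph_d0 (j : ℕ) (t : ℝ) (h0 : 0 ≤ t) (h1 : t ≤ 1) :
    ph j t 0 1 = max 0 (1 - |3 * t|) + max 0 (1 - |3 * t - 3|) := by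
  unfold ph mm
  rw [if_pos rfl, abs_of_nonneg (by linarith), abs_of_nonpos (by linarith)]
  rcases le_total t (1 / 3) with h | h
  · rw [max_eq_left (by linarith), min_eq_left (by linarith), max_eq_left (by linarith),
      min_eq_right (by linarith), max_eq_right (by linarith), max_eq_left (by linarith)]
    ring
  · rw [max_eq_right (by linarith), min_eq_left (by linarith), max_eq_left (a := 3 - 3 * t) (by linarith),
      max_eq_left (a := 0) (by linarith)]
    rcases le_total t (2 / 3) with h' | h'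
    · rw [min_eq_right (by linarith), max_eq_left (by linarith)]
      ring
    · rw [min_eq_left (by linarith), max_eq_right (by linarith)]
      ring

theorem ph_d1 (j : ℕ) (t : ℝ) (h0 : 0 ≤ t) (h1 : t ≤ 1) :
    ph j t (2 * j + 1) 1 = max 0 (1 - |3 * t - 1|) := by
  rcases ph1 j t h0 h1 with ⟨a, b, c⟩ | ⟨a, a', b, c⟩ | ⟨a, b, c⟩
  · rw [b, abs_of_nonpos (by linarith), max_eq_right (by linarith)]
    ring
  · rw [b, abs_of_nonneg (by linarith), max_eq_right (by linarith)]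
    ring
  · rw [b, abs_of_nonneg (by linarith), max_eq_left (by linarith)]

theorem ph_d2 (j : ℕ) (t : ℝ) (h0 : 0 ≤ t) (h1 : t ≤ 1) :
    ph j t (2 * j + 2) 1 = max 0 (1 - |3 * t - 2|) := by
  rcases ph1 j t h0 h1 with ⟨a, b, c⟩ | ⟨a, a', b, c⟩ | ⟨a, b, c⟩
  · rw [c, abs_of_nonpos (by linarith), max_eq_left (by linarith)]
  · rw [c, abs_of_nonpos (by linarith), max_eq_right (by linarith)]
    ring
  · rw [c, abs_of_nonneg (by linarith), max_eq_right (by linarith)]
    ring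

theorem pg_tri (v j : ℕ) (t : ℝ) (h0 : 0 ≤ t) (h1 : t ≤ 1) (u d : ℕ) :
    pg [pv v 0, pv v (2 * j + 1), pv v (2 * j + 2)] t (pv u d) =
      if u = v then ph j t d 1 else 0 := by
  have hr : pg [pv v 0, pv v (2 * j + 1), pv v (2 * j + 2)] t (pv u d) =
      max 0 (1 - |3 * t|) * (if pv v 0 = pv u d then 1 else 0) +
      max 0 (1 - |3 * t - 1|) * (if pv v (2 * j + 1) = pv u d then 1 else 0) +
      max 0 (1 - |3 * t - 2|) * (if pv v (2 * j + 2) = pv u d then 1 else 0) +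
      max 0 (1 - |3 * t - 3|) * (if pv v 0 = pv u d then 1 else 0) := by
    unfold pg
    have hl : ([pv v 0, pv v (2 * j + 1), pv v (2 * j + 2)] : List ℕ).length = 3 := rfl
    rw [hl, Finset.sum_range_succ, Finset.sum_range_succ, Finset.sum_range_succ,
      Finset.sum_range_succ, Finset.sum_range_zero, zero_add]
    norm_num
  rw [hr]
  by_cases hu : u = v
  · subst hu
    rw [if_pos rfl]
    by_cases hd0 : d = 0
    · subst hd0
      rw [if_pos rfl, if_neg fun h => absurd (pv_inj h).2 (by omega),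
        if_neg fun h => absurd (pv_inj h).2 (by omega), ph_d0 j t h0 h1]
      ring
    · by_cases hd1 : d = 2 * j + 1
      · subst hd1
        rw [if_pos rfl, if_neg fun h => absurd (pv_inj h).2 (by omega),
          if_neg fun h => absurd (pv_inj h).2 (by omega), ph_d1 j t h0 h1]
        ring
      · by_cases hd2 : d = 2 * j + 2
        · subst hd2
          rw [if_pos rfl, if_neg fun h => absurd (pv_inj h).2 (by omega),
            if_neg fun h => absurd (pv_inj h).2 (by omega), ph_d2 j t h0 h1]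
          ring
        · rw [if_neg fun h => hd0 (pv_inj h).2.symm, if_neg fun h => hd1 (pv_inj h).2.symm,
            if_neg fun h => hd2 (pv_inj h).2.symm, ph_other j d t 1 hd0 hd1 hd2]
          ring
  · rw [if_neg hu, if_neg fun h => hu (pv_inj h).1.symm, if_neg fun h => hu (pv_inj h).1.symm,
      if_neg fun h => hu (pv_inj h).1.symm]
    ring

end Prism509

open Prism509 in
theorem taskPrism : TaskPrism := by
  intro K J v b hK hb κ e δ hCP hpg
  refine ⟨hh K J hK (Cy.inc _ J b),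
    fun k => ((δ k).map (Cy.inc _ J).continuous).map (hh K J hK).continuous,
    fun j => (Cy.loop b j).map (hh K J hK).continuous, base_val K J hK v b hb, ?_, ?_, ?_⟩
  · intro k s
    funext n
    obtain ⟨u, d, rfl⟩ := exists_pv n
    rw [pg_map _ (hCP k).1, ← hpg k s]
    exact inc_val K J hK (δ k s) u d
  · intro j s
    funext n
    obtain ⟨u, d, rfl⟩ := exists_pv n
    rw [pg_tri v j s s.2.1 s.2.2]
    exact loop_val K J hK v b hb j s u d
  · refine ⟨⟨(hh K J hK).symm, (hh K J hK).symm.continuous⟩, ⟨hh K J hK, (hh K J hK).continuous⟩,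
      (hh K J hK).symm_apply_apply _, rfl, ⟨fun p => p.2, continuous_snd⟩, ?_, fun x => rfl,
      fun s => rfl, ?_⟩
    · intro x
      exact ((hh K J hK).apply_symm_apply x).symm
    · intro k
      have hP : ∀ (P : Path (Cy.inc _ J b) (Cy.inc _ J b)),
          ((P.map (hh K J hK).continuous).map (hh K J hK).symm.continuous).Homotopic
            (P.cast ((hh K J hK).symm_apply_apply _) ((hh K J hK).symm_apply_apply _)) := by
        intro P
        have : (P.map (hh K J hK).continuous).map (hh K J hK).symm.continuous =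
            P.cast ((hh K J hK).symm_apply_apply _) ((hh K J hK).symm_apply_apply _) := by
          ext s
          exact (hh K J hK).symm_apply_apply _
        rw [this]
      rcases k with k | j
      · exact hP _
      · exact hP _

end

end Pool.Agent.H659R3.CT
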